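import Pool.Agent.U404.MU.Typ

/-!
# Ratios of shifted primes: all ratios of `5 k / 18` elements of almost all sets of `k` integers

The question (Schinzel) is whether every positive rational is a ratio `(p + 1) / (q + 1)` or `(p - 1) / (q - 1)` of
shifted primes, infinitely often. Here: almost all `k`-element subsets of an arbitrary large finite set of positive
integers contain a set `J` of at least `5 k / 18` elements such that for infinitely many `n` ALL numbers `a n - 1`,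
`a ∈ J`, are prime, so that all ratios `a / b`, `a, b ∈ J`, have infinitely many representations of the first form,
simultaneously; and the same for the numbers `a n + 1` and the second form.

Proof. If a positive proportion of the `k`-element subsets of a large set had no such part, then (Erdős) a product
`A_1 × ⋯ × A_k` of `k` large sets `A_1 < ⋯ < A_k` would consist of such sets, against the coloured Maynard-Tao
theorem (`Pool.Agent.Y827.HN.patR`; there is no local condition for these forms).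
-/

set_option autoImplicit false

namespace Pool.Agent.Results.MP_1a023c_nt.AlmostAllSets

open Filter

/-- for infinitely many `n` each `a n`, `a ∈ J`, is a prime plus `1` -/
def PlusOne (J : Finset ℕ) : Prop := {n : ℕ | ∀ a ∈ J, ∃ p : ℕ, p.Prime ∧ p + 1 = a * n}.Infinite

/-- for infinitely many `n` each `a n`, `a ∈ J`, is a prime minus `1` -/
def MinusOne (J : Finset ℕ) : Prop := {n : ℕ | ∀ a ∈ J, ∃ p : ℕ, p.Prime ∧ p = a * n + 1}.Infinite

/-- the forms with the indices in a good set are simultaneously prime infinitely often -/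
lemma infinite_of_good {φ : ℕ → ℤ × ℤ} {J : Finset ℕ} (hφ : ∀ r ∈ J, ∀ r' ∈ J, φ r = φ r' → r = r')
    (h : Pool.Agent.U404.MU.Good φ J) :
    {n : ℕ | 1 ≤ n ∧ ∀ r ∈ J, ((φ r).1 * (n : ℤ) + (φ r).2).toNat.Prime}.Infinite := by
  obtain ⟨C, hC⟩ := Pool.Agent.U404.MU.good_count hφ h 1
  intro hfin
  obtain ⟨m, hm⟩ : ∃ m : ℕ, m = {n : ℕ | 1 ≤ n ∧ ∀ r ∈ J, ((φ r).1 * (n : ℤ) + (φ r).2).toNat.Prime}.ncard := ⟨_, rfl⟩
  -- `N / (log N) ^ C` tends to infinity
  have hlim : ∀ᶠ N : ℕ in atTop, (m : ℝ) < (N : ℝ) / (Real.log N) ^ C := by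
    have h1 : (fun x : ℝ => (Real.log x) ^ C) =o[atTop] fun x : ℝ => x := by
      have h2 := isLittleO_log_rpow_rpow_atTop (C : ℝ) (show (0 : ℝ) < 1 by norm_num)
      simpa using h2
    have h2 : ∀ᶠ x : ℝ in atTop, (Real.log x) ^ C ≤ 1 / (m + 1) * x := by
      have h3 := (Asymptotics.isLittleO_iff.1 h1) (show (0 : ℝ) < 1 / (m + 1) by positivity)
      filter_upwards [h3, eventually_ge_atTop 1] with x hx hx1
      have h4 : 0 ≤ Real.log x := Real.log_nonneg hx1
      rw [Real.norm_eq_abs, Real.norm_eq_abs, abs_of_nonneg (pow_nonneg h4 _), abs_of_nonneg (by linarith)] at hx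
      exact hx
    have h3 := tendsto_natCast_atTop_atTop.eventually (h2.and (eventually_gt_atTop (Real.exp 1)))
    filter_upwards [h3] with N hN
    obtain ⟨hN1, hN2⟩ := hN
    have h4 : 0 < Real.log N := Real.log_pos (lt_trans (Real.one_lt_exp_iff.2 one_pos) hN2)
    rw [lt_div_iff₀ (pow_pos h4 _)]
    have h5 : (0 : ℝ) < N := lt_trans (Real.exp_pos 1) hN2
    have h6 : (0 : ℝ) ≤ m := Nat.cast_nonneg _
    calc (m : ℝ) * (Real.log N) ^ C ≤ m * (1 / (m + 1) * N) := mul_le_mul_of_nonneg_left hN1 h6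
      _ = (m / (m + 1)) * N := by ring
      _ < 1 * N := by
        apply mul_lt_mul_of_pos_right _ h5
        rw [div_lt_one (by positivity)]
        linarith
      _ = N := one_mul _
  obtain ⟨N, hN1, hN2⟩ := (hC.and_eventually hlim).exists
  obtain ⟨d, -, -, hd⟩ := hN1 J (Finset.Subset.refl _)
  have h7 : ({n : ℕ | 1 ≤ n ∧ n ≤ N ∧ ∀ i < 1, ∀ r ∈ J,
        ((φ r).1 * ((n + i * d : ℕ) : ℤ) + (φ r).2).toNat.Prime ↔ r ∈ J}.ncard : ℝ) ≤ m := by
    rw [hm, Nat.cast_le]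
    apply Set.ncard_le_ncard _ hfin
    rintro n ⟨hn1, -, hn3⟩
    refine ⟨hn1, fun r hr => ?_⟩
    have h8 := (hn3 0 one_pos r hr).2 hr
    simpa using h8
  linarith

/-- **Ratios of shifted primes.** For every `k ≥ 1` and `ε > 0` there is `n₀` such that for EVERY set `F` of at least
`n₀` positive integers all but at most `ε * (|F| choose k)` of the subsets `I` of `F` with `k` elements contain sets
`J` and `J'` of at least `5 k / 18` elements with `PlusOne J` and `MinusOne J'`. -/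
theorem result (k : ℕ) (hk : 1 ≤ k) (ε : ℝ) (hε : 0 < ε) : ∃ n₀ : ℕ, ∀ F : Finset ℕ, (∀ a ∈ F, 1 ≤ a) →
    n₀ ≤ F.card → ({I : Finset ℕ | I ⊆ F ∧ I.card = k ∧ ¬ ((∃ J ⊆ I, 5 * k ≤ 18 * J.card ∧ PlusOne J) ∧
      ∃ J ⊆ I, 5 * k ≤ 18 * J.card ∧ MinusOne J)}.ncard : ℝ) ≤ ε * (F.card.choose k : ℝ) := by
  classical
  obtain ⟨φ, hφ⟩ : ∃ φ : ℤ → ℕ → ℤ × ℤ, φ = fun (b : ℤ) (r : ℕ) => ((r : ℤ), b) := ⟨_, rfl⟩
  have hφi : ∀ (b : ℤ) (r r' : ℕ), φ b r = φ b r' → r = r' := by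
    intro b r r' h
    rw [hφ] at h
    have h1 := (Prod.mk.inj h).1
    exact_mod_cast h1
  obtain ⟨n₀, hn₀⟩ := Pool.Agent.U404.MU.typical hk (half_pos hε)
  refine ⟨n₀, fun F hF hn => ?_⟩
  have hadm : ∀ b : ℤ, IsUnit b → Pool.Agent.U404.MU.Adm (φ b) F := by
    intro b hb
    have hcop : ∀ r : ℤ, IsCoprime r b := by
      obtain ⟨u, rfl⟩ := hb
      exact fun r => ⟨0, ((u⁻¹ : ℤˣ) : ℤ), by simp⟩
    refine ⟨fun r hr => ?_, fun r _ r' _ h => hφi b r r' h, fun p hp => ?_⟩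
    · rw [hφ]
      refine ⟨?_, hcop _⟩
      have h1 := hF r hr
      show (0 : ℤ) < (r : ℤ)
      exact_mod_cast h1
    · refine ⟨0, fun r _ hd => ?_⟩
      have hd1 : (p : ℤ) ∣ b := by simpa [hφ] using hd
      exact (Nat.prime_iff_prime_int.1 hp).not_isUnit (isUnit_of_dvd_unit hd1 hb)
  have h1 := hn₀ (φ (-1)) F (hadm (-1) isUnit_one.neg) hn
  have h2 := hn₀ (φ 1) F (hadm 1 isUnit_one) hn
  have hsub : {I : Finset ℕ | I ⊆ F ∧ I.card = k ∧ ¬ ((∃ J ⊆ I, 5 * k ≤ 18 * J.card ∧ PlusOne J) ∧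
      ∃ J ⊆ I, 5 * k ≤ 18 * J.card ∧ MinusOne J)} ⊆
      (((F.powersetCard k).filter (Pool.Agent.U404.MU.Bad (φ (-1)) k) ∪
        (F.powersetCard k).filter (Pool.Agent.U404.MU.Bad (φ 1) k) : Finset (Finset ℕ)) : Set (Finset ℕ)) := by
    rintro I ⟨hI1, hI2, hI3⟩
    rw [Finset.mem_coe, Finset.mem_union, Finset.mem_filter, Finset.mem_filter, Finset.mem_powersetCard]
    by_contra hcon
    push Not at hcon
    apply hI3
    obtain ⟨hc1, hc2⟩ := hcon
    have hb1 := hc1 ⟨hI1, hI2⟩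
    have hb2 := hc2 ⟨hI1, hI2⟩
    unfold Pool.Agent.U404.MU.Bad at hb1 hb2
    push Not at hb1 hb2
    obtain ⟨J, hJ1, hJ2, hJ3⟩ := hb1
    obtain ⟨J', hJ1', hJ2', hJ3'⟩ := hb2
    refine ⟨⟨J, hJ1, hJ2, ?_⟩, ⟨J', hJ1', hJ2', ?_⟩⟩
    · refine (infinite_of_good (fun r _ r' _ h => hφi _ r r' h) hJ3).mono ?_
      rintro n ⟨hn1, hn2⟩ a ha
      have ha1 : 1 ≤ a := hF a (hI1 (hJ1 ha))
      refine ⟨_, hn2 a ha, ?_⟩
      have h3 : 1 ≤ a * n := Nat.mul_pos ha1 hn1
      rw [hφ]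
      have h4 : ((a : ℤ) * (n : ℤ) + -1) = ((a * n - 1 : ℕ) : ℤ) := by
        push_cast [Nat.cast_sub h3]
        ring
      simp only
      rw [h4, Int.toNat_natCast]
      omega
    · refine (infinite_of_good (fun r _ r' _ h => hφi _ r r' h) hJ3').mono ?_
      rintro n ⟨hn1, hn2⟩ a ha
      refine ⟨_, hn2 a ha, ?_⟩
      rw [hφ]
      have h4 : ((a : ℤ) * (n : ℤ) + 1) = ((a * n + 1 : ℕ) : ℤ) := by
        push_cast
        ring
      simp only
      rw [h4, Int.toNat_natCast]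
  have h3 := (Set.ncard_le_ncard hsub (Finset.finite_toSet _))
  rw [Set.ncard_coe_finset] at h3
  have h4 := h3.trans (Finset.card_union_le _ _)
  have h5 : ({I : Finset ℕ | I ⊆ F ∧ I.card = k ∧ ¬ ((∃ J ⊆ I, 5 * k ≤ 18 * J.card ∧ PlusOne J) ∧
      ∃ J ⊆ I, 5 * k ≤ 18 * J.card ∧ MinusOne J)}.ncard : ℝ) ≤
      (((F.powersetCard k).filter (Pool.Agent.U404.MU.Bad (φ (-1)) k)).card : ℝ) +
        (((F.powersetCard k).filter (Pool.Agent.U404.MU.Bad (φ 1) k)).card : ℝ) := by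
    exact_mod_cast h4
  linarith

end Pool.Agent.Results.MP_1a023c_nt.AlmostAllSets
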